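import Pool.Agent.H31.PC.Targets

/-!
# MP_6e60ff_nt: the sum over the forms of height at most `R`
-/

namespace Pool.Agent.H99.PC

open Finset MvPolynomial Pool.Agent.H31.PC Pool.Agent.H31.RZ

theorem pow_diff (a b : ℝ) (hb : 0 ≤ b) (hab : b ≤ a) (N : ℕ) :
    a ^ N ≤ b ^ N + N * (a - b) * a ^ (N - 1) := by
  induction N with
  | zero => simp
  | succ N ih =>
    have ha : 0 ≤ a := hb.trans hab
    rcases Nat.eq_zero_or_pos N with h | h
    · subst h; simp
    · have h1 : a ^ (N + 1 - 1) = a * a ^ (N - 1) := by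
        rw [Nat.add_sub_cancel, ← pow_succ']
        congr 1
        omega
      have h2 : b ^ N ≤ a ^ N := pow_le_pow_left₀ hb hab N
      have h3 : a ^ N = a * a ^ (N - 1) := by
        rw [← pow_succ']
        congr 1
        omega
      have h4 : a * a ^ N ≤ a * (b ^ N + N * (a - b) * a ^ (N - 1)) :=
        mul_le_mul_of_nonneg_left ih ha
      have h5 : (a - b) * b ^ N ≤ (a - b) * a ^ N :=
        mul_le_mul_of_nonneg_left h2 (sub_nonneg.2 hab)
      rw [h1, pow_succ', pow_succ', Nat.cast_add, Nat.cast_one]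
      nlinarith [h4, h5, h3]

/-- height -/
noncomputable def ht (w : MvPolynomial (Fin 3) ℤ) : ℕ :=
  w.support.sup fun μ => (w.coeff μ).natAbs

theorem le_ht (w : MvPolynomial (Fin 3) ℤ) (μ : Fin 3 →₀ ℕ) : (w.coeff μ).natAbs ≤ ht w := by
  by_cases h : μ ∈ w.support
  · exact Finset.le_sup (f := fun μ => (w.coeff μ).natAbs) h
  · rw [notMem_support_iff.1 h]
    simp

theorem ht_le {w : MvPolynomial (Fin 3) ℤ} {k : ℕ} (h : ∀ μ, |w.coeff μ| ≤ k) : ht w ≤ k := by
  refine Finset.sup_le fun μ _ => ?_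
  have := h μ
  rw [Int.abs_eq_natAbs] at this
  exact_mod_cast this

theorem pf_SH : T_SH := by
  intro e
  obtain ⟨N, hN⟩ : ∃ N, N = NN 2 e := ⟨_, rfl⟩
  rw [← hN]
  refine ⟨2 * N * 3 ^ (N - 1), fun R hR => ?_⟩
  have hmem : ∀ w ∈ (FF 2 e R).filter (fun w => w ≠ 0), ht w ∈ Finset.Icc 1 R := by
    intro w hw
    rw [Finset.mem_filter] at hw
    obtain ⟨h1, h2⟩ := hw
    rw [Finset.mem_Icc]
    refine ⟨?_, ht_le (mem_FF.1 h1).2⟩
    obtain ⟨μ, hμ⟩ := exists_coeff_ne_zero h2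
    have := le_ht w μ
    omega
  have key := Finset.sum_fiberwise_of_maps_to hmem
    (fun w => (((ht w : ℕ) : ℝ) ^ (N - 1))⁻¹)
  change ∑ w ∈ (FF 2 e R).filter (fun w => w ≠ 0), (((ht w : ℕ) : ℝ) ^ (N - 1))⁻¹ ≤ _
  rw [← key]
  have hk : ∀ k ∈ Finset.Icc 1 R, ∑ w ∈ ((FF 2 e R).filter (fun w => w ≠ 0)).filter
      (fun w => ht w = k), (((ht w : ℕ) : ℝ) ^ (N - 1))⁻¹ ≤ 2 * N * 3 ^ (N - 1) := by
    intro k hk
    rw [Finset.mem_Icc] at hk
    have hk0 : (0 : ℝ) < k := by exact_mod_cast hk.1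
    have e1 : ∑ w ∈ ((FF 2 e R).filter (fun w => w ≠ 0)).filter
        (fun w => ht w = k), (((ht w : ℕ) : ℝ) ^ (N - 1))⁻¹ =
        (#(((FF 2 e R).filter (fun w => w ≠ 0)).filter (fun w => ht w = k)) : ℝ) *
          ((k : ℝ) ^ (N - 1))⁻¹ := by
      rw [Finset.sum_congr rfl (g := fun _ => ((k : ℝ) ^ (N - 1))⁻¹), Finset.sum_const,
        nsmul_eq_mul]
      intro w hw
      rw [(Finset.mem_filter.1 hw).2]
    rw [e1]
    have hsub : ((FF 2 e R).filter (fun w => w ≠ 0)).filter (fun w => ht w = k) ⊆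
        FF 2 e k \ FF 2 e (k - 1) := by
      intro w hw
      rw [Finset.mem_filter, Finset.mem_filter] at hw
      obtain ⟨⟨h1, h2⟩, h3⟩ := hw
      rw [Finset.mem_sdiff]
      constructor
      · rw [mem_FF]
        refine ⟨(mem_FF.1 h1).1, fun μ => ?_⟩
        rw [Int.abs_eq_natAbs]
        exact_mod_cast (le_ht w μ).trans h3.le
      · intro h4
        have := ht_le (mem_FF.1 h4).2
        omega
    have hss : FF 2 e (k - 1) ⊆ FF 2 e k := by
      intro w hw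
      rw [mem_FF] at hw ⊢
      refine ⟨hw.1, fun μ => (hw.2 μ).trans ?_⟩
      exact_mod_cast Nat.sub_le k 1
    have hc : #(((FF 2 e R).filter (fun w => w ≠ 0)).filter (fun w => ht w = k)) +
        (2 * (k - 1) + 1) ^ N ≤ (2 * k + 1) ^ N := by
      have h1 := Finset.card_le_card hsub
      have h2 := Finset.card_sdiff_add_card_eq_card hss
      rw [card_FF, card_FF, ← hN] at h2
      omega
    have hc' : (#(((FF 2 e R).filter (fun w => w ≠ 0)).filter (fun w => ht w = k)) : ℝ) +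
        (2 * (k : ℝ) - 1) ^ N ≤ (2 * (k : ℝ) + 1) ^ N := by
      have h3 : ((2 * (k - 1) + 1 : ℕ) : ℝ) = 2 * (k : ℝ) - 1 := by
        have : 2 * (k - 1) + 1 + 1 = 2 * k := by omega
        have h4 : ((2 * (k - 1) + 1 : ℕ) : ℝ) + 1 = 2 * (k : ℝ) := by exact_mod_cast this
        linarith
      rw [← h3]
      exact_mod_cast hc
    have hd := pow_diff (2 * (k : ℝ) + 1) (2 * (k : ℝ) - 1) (by
      have : (1 : ℝ) ≤ k := by exact_mod_cast hk.1
      linarith) (by linarith) N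
    have hle : (2 * (k : ℝ) + 1) ^ (N - 1) ≤ 3 ^ (N - 1) * (k : ℝ) ^ (N - 1) := by
      rw [← mul_pow]
      refine pow_le_pow_left₀ (by linarith) ?_ _
      have : (1 : ℝ) ≤ k := by exact_mod_cast hk.1
      linarith
    have hcard : (#(((FF 2 e R).filter (fun w => w ≠ 0)).filter (fun w => ht w = k)) : ℝ) ≤
        2 * N * 3 ^ (N - 1) * (k : ℝ) ^ (N - 1) := by
      have h5 : (N : ℝ) * (2 * (k : ℝ) + 1 - (2 * (k : ℝ) - 1)) * (2 * (k : ℝ) + 1) ^ (N - 1) ≤
          2 * N * 3 ^ (N - 1) * (k : ℝ) ^ (N - 1) := by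
        have h6 : (N : ℝ) * (2 * (k : ℝ) + 1 - (2 * (k : ℝ) - 1)) = 2 * N := by ring
        rw [h6, mul_assoc (2 * (N : ℝ))]
        exact mul_le_mul_of_nonneg_left hle
          (mul_nonneg zero_le_two (Nat.cast_nonneg N))
      linarith
    rw [← div_eq_mul_inv, div_le_iff₀ (pow_pos hk0 _)]
    exact hcard
  refine (Finset.sum_le_sum hk).trans ?_
  rw [Finset.sum_const, Nat.card_Icc, nsmul_eq_mul, Nat.add_sub_cancel]
  push_cast
  rw [mul_comm]

end Pool.Agent.H99.PC
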