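import Mathlib

/-!
# Kernel-checked nonnegativity of integer polynomials on rational intervals

`ev l x = ∑ l_i x^i`.  The check substitutes `x = (a + b t)/(w (1 + t))`, `t ≥ 0`, and asks that all
coefficients of the resulting polynomial (a Bernstein form) are nonnegative.
-/

namespace Pool.Agent.H99.PC

/-- evaluation of an integer polynomial given by its list of coefficients -/
noncomputable def ev : List ℤ → ℝ → ℝ
  | [], _ => 0
  | c :: l, x => c + x * ev l x

/-- sum of polynomials -/
def add : List ℤ → List ℤ → List ℤ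
  | [], m => m
  | c :: l, [] => c :: l
  | c :: l, d :: m => (c + d) :: add l m

/-- product with an integer -/
def smul (c : ℤ) : List ℤ → List ℤ
  | [] => []
  | d :: m => (c * d) :: smul c m

/-- product with `u + v t` -/
def mulL (u v : ℤ) (l : List ℤ) : List ℤ := add (smul u l) (0 :: smul v l)

/-- product of polynomials -/
def mul : List ℤ → List ℤ → List ℤ
  | [], _ => []
  | c :: l, m => add (smul c m) (0 :: mul l m)

/-- `(q, D)` with `D(t) = (w (1+t))^n`, `q(t) = D(t) p((a + b t)/(w (1+t)))` -/
def comp (a b w : ℤ) : List ℤ → List ℤ × List ℤ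
  | [] => ([], [1])
  | c :: l =>
    let r := comp a b w l
    let D := mulL w w r.2
    (add (smul c D) (mulL a b r.1), D)

/-- all coefficients are nonnegative -/
def allNN : List ℤ → Bool
  | [] => true
  | c :: l => decide (0 ≤ c) && allNN l

/-- the check on `[a/w, b/w]` -/
def chk (l : List ℤ) (a b w : ℤ) : Bool := allNN (comp a b w l).1

/-- the check on consecutive intervals `[p_i/w, p_{i+1}/w]` -/
def chkL (l : List ℤ) (w : ℤ) : List ℤ → Bool
  | [] => true
  | [_] => true
  | a :: b :: r => decide (a < b) && chk l a b w && chkL l w (b :: r)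

theorem ev_add (l m : List ℤ) (x : ℝ) : ev (add l m) x = ev l x + ev m x := by
  induction l generalizing m with
  | nil => simp [add, ev]
  | cons c l ih =>
    cases m with
    | nil => simp [add, ev]
    | cons d m => simp only [add, ev, ih]; push_cast; ring

theorem ev_smul (c : ℤ) (l : List ℤ) (x : ℝ) : ev (smul c l) x = c * ev l x := by
  induction l with
  | nil => simp [smul, ev]
  | cons d l ih => simp only [smul, ev, ih]; push_cast; ring

theorem ev_mulL (u v : ℤ) (l : List ℤ) (x : ℝ) : ev (mulL u v l) x = (u + v * x) * ev l x := by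
  simp only [mulL, ev_add, ev_smul, ev]; push_cast; ring

theorem ev_mul (l m : List ℤ) (x : ℝ) : ev (mul l m) x = ev l x * ev m x := by
  induction l with
  | nil => simp [mul, ev]
  | cons c l ih => simp only [mul, ev_add, ev_smul, ev, ih]; push_cast; ring

theorem ev_nonneg {l : List ℤ} (h : allNN l = true) {t : ℝ} (ht : 0 ≤ t) : 0 ≤ ev l t := by
  induction l with
  | nil => simp [ev]
  | cons c l ih =>
    simp only [allNN, Bool.and_eq_true, decide_eq_true_eq] at h
    have hc : (0 : ℝ) ≤ c := by exact_mod_cast h.1
    have := ih h.2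
    simp only [ev]
    positivity

theorem comp_snd (a b w : ℤ) (l : List ℤ) (t : ℝ) :
    ev (comp a b w l).2 t = (w * (1 + t)) ^ l.length := by
  induction l with
  | nil => simp [comp, ev]
  | cons c l ih => simp only [comp, ev_mulL, ih, List.length_cons, pow_succ]; ring

theorem comp_fst (a b w : ℤ) (l : List ℤ) (t : ℝ) (ht : (w : ℝ) * (1 + t) ≠ 0) :
    ev (comp a b w l).1 t = (w * (1 + t)) ^ l.length * ev l ((a + b * t) / (w * (1 + t))) := by
  induction l with
  | nil => simp [comp, ev]
  | cons c l ih =>
    have hy : (a : ℝ) + b * t = (w * (1 + t)) * ((a + b * t) / (w * (1 + t))) := by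
      rw [mul_div_cancel₀ _ ht]
    simp only [comp, ev_add, ev_smul, ev_mulL, ih, comp_snd, List.length_cons, pow_succ, ev]
    generalize ((a : ℝ) + b * t) / (w * (1 + t)) = y at hy ⊢
    rw [hy]
    ring

theorem continuous_ev (l : List ℤ) : Continuous (ev l) := by
  induction l with
  | nil => exact continuous_const
  | cons c l ih => exact continuous_const.add (continuous_id.mul ih)

theorem chk_sound {l : List ℤ} {a b w : ℤ} (hw : 0 < w) (h : chk l a b w = true) {x : ℝ}
    (h1 : (a : ℝ) / w ≤ x) (h2 : x ≤ (b : ℝ) / w) : 0 ≤ ev l x := by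
  have hw' : (0 : ℝ) < w := by exact_mod_cast hw
  have key : ∀ x : ℝ, (a : ℝ) / w ≤ x → x < (b : ℝ) / w → 0 ≤ ev l x := by
    intro x h1 h2
    have h3 : 0 < (b : ℝ) - w * x := by
      rw [lt_div_iff₀ hw'] at h2
      linarith
    have h4 : 0 ≤ w * x - a := by
      rw [div_le_iff₀ hw'] at h1
      linarith
    set t : ℝ := (w * x - a) / (b - w * x) with ht
    have ht0 : 0 ≤ t := by positivity
    have hne : (w : ℝ) * (1 + t) ≠ 0 := by positivity
    have hx : ((a : ℝ) + b * t) / (w * (1 + t)) = x := by
      rw [div_eq_iff hne, ht]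
      field_simp
      ring
    have := comp_fst a b w l t hne
    rw [hx] at this
    have hpos : 0 ≤ ev (comp a b w l).1 t := ev_nonneg h ht0
    rw [this] at hpos
    have hp : 0 < ((w : ℝ) * (1 + t)) ^ l.length := by positivity
    exact nonneg_of_mul_nonneg_right (by linarith) hp
  rcases lt_or_eq_of_le h2 with h0 | h0
  · exact key x h1 h0
  · rcases lt_or_eq_of_le h1 with h' | h'
    · -- limit from the left
      have hcl : x ∈ closure (Set.Ico ((a : ℝ) / w) x) := by
        rw [closure_Ico (ne_of_lt h')]
        exact ⟨h1, le_rfl⟩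
      exact closure_minimal (s := Set.Ico ((a : ℝ) / w) x) (t := {y | 0 ≤ ev l y})
        (fun y hy => key y hy.1 (by rw [← h0]; exact hy.2))
        (isClosed_le continuous_const (continuous_ev l)) hcl
    · -- a = b : evaluate at t = 0
      have hne : (w : ℝ) * (1 + 0) ≠ 0 := by simpa using hw'.ne'
      have := comp_fst a b w l 0 hne
      have hpos : 0 ≤ ev (comp a b w l).1 0 := ev_nonneg h le_rfl
      rw [this] at hpos
      have hp : 0 < ((w : ℝ) * (1 + 0)) ^ l.length := by positivity
      have hx : ((a : ℝ) + b * 0) / (w * (1 + 0)) = x := by rw [← h']; simp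
      rw [hx] at hpos
      exact nonneg_of_mul_nonneg_right (by linarith) hp

theorem chkL_sound {l : List ℤ} {w : ℤ} (hw : 0 < w) : ∀ (p : List ℤ) (a b : ℤ),
    chkL l w (a :: p) = true → (a :: p).getLast? = some b →
    ∀ x : ℝ, (a : ℝ) / w ≤ x → x ≤ (b : ℝ) / w → 0 ≤ ev l x ∨ p = [] := by
  intro p
  induction p with
  | nil => intro a b _ _ x _ _; exact Or.inr rfl
  | cons c p ih =>
    intro a b h hb x h1 h2
    left
    simp only [chkL, Bool.and_eq_true, decide_eq_true_eq] at h
    rcases le_or_gt x ((c : ℝ) / w) with hx | hx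
    · exact chk_sound hw h.1.2 h1 hx
    · have hb' : (c :: p).getLast? = some b := by simpa using hb
      rcases ih c b h.2 hb' x hx.le h2 with h5 | h5
      · exact h5
      · subst h5
        simp at hb'
        subst hb'
        exact absurd h2 (not_le.mpr hx)

end Pool.Agent.H99.PC
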