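import Pool.Agent.H99.PC.Der

/-!
# Fast kernel check of nonnegativity of polynomial expressions

A polynomial expression `p` of degree `d` is nonnegative on `[a/w, b/w]` if all coefficients of
`(w(1+t))^d p((a+bt)/(w(1+t)))` are nonnegative.  The coefficients are read off from the value at
`t = 2^(e+1)` (Kronecker substitution), so that only few operations with large integers are needed.
-/

namespace Pool.Agent.H99.PC

/-- polynomial expressions in one variable -/
inductive PE
  | C (c : ℤ)
  | L (l : List ℤ)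
  | add (p q : PE)
  | sub (p q : PE)
  | mul (p q : PE)

namespace PE

/-- value at a real number -/
noncomputable def ev : PE → ℝ → ℝ
  | C c, _ => c
  | L l, x => PC.ev l x
  | add p q, x => ev p x + ev q x
  | sub p q, x => ev p x - ev q x
  | mul p q, x => ev p x * ev q x

/-- a bound for the degree -/
def deg : PE → ℕ
  | C _ => 0
  | L l => l.length
  | add p q => max (deg p) (deg q)
  | sub p q => max (deg p) (deg q)
  | mul p q => deg p + deg q

/-- `∑ c_i X^i Y^(n-i)`, `n = l.length` -/
def hL (X Y : ℕ) : List ℤ → ℤ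
  | [] => 0
  | c :: l => c * ((Y ^ (l.length + 1) : ℕ) : ℤ) + (X : ℤ) * hL X Y l

/-- homogeneous evaluation -/
def hom (X Y : ℕ) : PE → ℤ
  | C c => c
  | L l => hL X Y l
  | add p q => hom X Y p * ((Y ^ (deg (add p q) - deg p) : ℕ) : ℤ) +
      hom X Y q * ((Y ^ (deg (add p q) - deg q) : ℕ) : ℤ)
  | sub p q => hom X Y p * ((Y ^ (deg (sub p q) - deg p) : ℕ) : ℤ) -
      hom X Y q * ((Y ^ (deg (sub p q) - deg q) : ℕ) : ℤ)
  | mul p q => hom X Y p * hom X Y q

/-- `∑ |c_i| X^i Y^(n-i)` -/
def nL (X Y : ℕ) : List ℤ → ℕ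
  | [] => 0
  | c :: l => c.natAbs * Y ^ (l.length + 1) + X * nL X Y l

/-- bound for the sum of the absolute values of the coefficients -/
def nrm (X Y : ℕ) : PE → ℕ
  | C c => c.natAbs
  | L l => nL X Y l
  | add p q => nrm X Y p * Y ^ (deg (add p q) - deg p) + nrm X Y q * Y ^ (deg (add p q) - deg q)
  | sub p q => nrm X Y p * Y ^ (deg (sub p q) - deg p) + nrm X Y q * Y ^ (deg (sub p q) - deg q)
  | mul p q => nrm X Y p * nrm X Y q

end PE

/-- `1 + K + … + K^(n-1)` -/
def geo (K : ℕ) : ℕ → ℕ
  | 0 => 0
  | n + 1 => 1 + K * geo K n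

/-- all of the first `n` digits of `V` in base `K` are at least `H` -/
def dig (K H : ℕ) : ℕ → ℕ → Bool
  | 0, _ => true
  | n + 1, V => Nat.ble H (V % K) && dig K H n (V / K)

/-- the check on `[a/w, b/w]` -/
def pchk (p : PE) (e a b w : ℕ) : Bool :=
  Nat.ble (p.nrm (a + b) (2 * w) + 1) (2 ^ e) &&
  dig (2 ^ (e + 1)) (2 ^ e) (p.deg + 1)
    (p.hom (a + b * 2 ^ (e + 1)) (w * (1 + 2 ^ (e + 1))) +
      ((2 ^ e * geo (2 ^ (e + 1)) (p.deg + 1) : ℕ) : ℤ)).toNat

/-- the check on consecutive intervals -/
def pchkL (p : PE) (e w : ℕ) : List ℕ → Bool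
  | [] => true
  | [_] => true
  | a :: b :: r => Nat.blt a b && pchk p e a b w && pchkL p e w (b :: r)

/-! ### Soundness -/

/-- integer value -/
def evZ : List ℤ → ℤ → ℤ
  | [], _ => 0
  | c :: l, x => c + x * evZ l x

theorem evZ_cast (l : List ℤ) (K : ℤ) : ((evZ l K : ℤ) : ℝ) = ev l (K : ℝ) := by
  induction l with
  | nil => simp [evZ, ev]
  | cons c l ih => simp only [evZ, ev]; push_cast; rw [ih]

/-- sum of absolute values -/
def n1 : List ℤ → ℕ
  | [] => 0
  | c :: l => c.natAbs + n1 l

theorem n1_add (l m : List ℤ) : n1 (add l m) ≤ n1 l + n1 m := by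
  induction l generalizing m with
  | nil => simp [add, n1]
  | cons c l ih =>
    cases m with
    | nil => simp [add, n1]
    | cons d m =>
      simp only [add, n1]
      have := ih m
      have := Int.natAbs_add_le c d
      omega

theorem n1_smul (c : ℤ) (l : List ℤ) : n1 (smul c l) = c.natAbs * n1 l := by
  induction l with
  | nil => simp [smul, n1]
  | cons d l ih => simp only [smul, n1, ih, Int.natAbs_mul]; ring

theorem n1_mulL (u v : ℤ) (l : List ℤ) : n1 (mulL u v l) ≤ (u.natAbs + v.natAbs) * n1 l := by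
  unfold mulL
  refine (n1_add _ _).trans ?_
  simp only [n1, n1_smul]
  simp
  ring_nf
  rfl

theorem n1_mul (l m : List ℤ) : n1 (mul l m) ≤ n1 l * n1 m := by
  induction l with
  | nil => simp [mul, n1]
  | cons c l ih =>
    simp only [mul, n1]
    refine (n1_add _ _).trans ?_
    simp only [n1, n1_smul]
    simp
    nlinarith

theorem len_add (l m : List ℤ) : (add l m).length = max l.length m.length := by
  induction l generalizing m with
  | nil => simp [add]
  | cons c l ih =>
    cases m with
    | nil => simp [add]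
    | cons d m => simp [add, ih]

theorem len_smul (c : ℤ) (l : List ℤ) : (smul c l).length = l.length := by
  induction l with
  | nil => rfl
  | cons d l ih => simp [smul, ih]

theorem len_mulL (u v : ℤ) (l : List ℤ) : (mulL u v l).length = l.length + 1 := by
  simp [mulL, len_add, len_smul]

theorem len_mul (l m : List ℤ) : (mul l m).length ≤ l.length + (max m.length 1 - 1) := by
  induction l with
  | nil => simp [mul]
  | cons c l ih =>
    simp only [mul, len_add, len_smul, List.length_cons]
    omega

/-- multiplication by `(w(1+t))^n` -/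
def padn (w : ℤ) : ℕ → List ℤ → List ℤ
  | 0, l => l
  | n + 1, l => mulL w w (padn w n l)

theorem ev_padn (w : ℤ) (n : ℕ) (l : List ℤ) (t : ℝ) :
    ev (padn w n l) t = (w * (1 + t)) ^ n * ev l t := by
  induction n with
  | zero => simp [padn]
  | succ n ih => simp only [padn, ev_mulL, ih, pow_succ]; ring

theorem n1_padn (w : ℤ) (n : ℕ) (l : List ℤ) :
    n1 (padn w n l) ≤ n1 l * (2 * w.natAbs) ^ n := by
  induction n with
  | zero => simp [padn]
  | succ n ih =>
    simp only [padn]
    refine (n1_mulL _ _ _).trans ?_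
    calc (w.natAbs + w.natAbs) * n1 (padn w n l)
        ≤ (w.natAbs + w.natAbs) * (n1 l * (2 * w.natAbs) ^ n) := Nat.mul_le_mul_left _ ih
      _ = n1 l * (2 * w.natAbs) ^ (n + 1) := by ring

theorem len_padn (w : ℤ) (n : ℕ) (l : List ℤ) : (padn w n l).length = l.length + n := by
  induction n with
  | zero => simp [padn]
  | succ n ih => simp only [padn, len_mulL, ih]; ring

namespace PE

/-- the polynomial `(w(1+t))^d p((a+bt)/(w(1+t)))` -/
def hl (a b w : ℕ) : PE → List ℤ
  | C c => [c]
  | L l => (comp a b w l).1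
  | add p q => PC.add (padn w (deg (add p q) - deg p) (hl a b w p))
      (padn w (deg (add p q) - deg q) (hl a b w q))
  | sub p q => PC.sub (padn w (deg (sub p q) - deg p) (hl a b w p))
      (padn w (deg (sub p q) - deg q) (hl a b w q))
  | mul p q => PC.mul (hl a b w p) (hl a b w q)

theorem hl_real (a b w : ℕ) (t : ℝ) (ht : (w : ℝ) * (1 + t) ≠ 0) (p : PE) :
    PC.ev (hl a b w p) t = (w * (1 + t)) ^ deg p * ev p ((a + b * t) / (w * (1 + t))) := by
  induction p with
  | C c => simp [hl, PC.ev, ev, deg]
  | L l =>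
    have := comp_fst (a : ℤ) b w l t (by push_cast; exact ht)
    simp only [hl, deg, ev]
    rw [this]
    push_cast
    rfl
  | add p q ihp ihq =>
    simp only [hl, ev_add, ev_padn, ihp, ihq, ev]
    have h1 : deg p ≤ deg (add p q) := le_max_left _ _
    have h2 : deg q ≤ deg (add p q) := le_max_right _ _
    push_cast
    rw [← mul_assoc, ← mul_assoc, ← pow_add, ← pow_add, Nat.sub_add_cancel h1,
      Nat.sub_add_cancel h2]
    ring
  | sub p q ihp ihq =>
    simp only [hl, ev_sub, ev_padn, ihp, ihq, ev]
    have h1 : deg p ≤ deg (sub p q) := le_max_left _ _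
    have h2 : deg q ≤ deg (sub p q) := le_max_right _ _
    push_cast
    rw [← mul_assoc, ← mul_assoc, ← pow_add, ← pow_add, Nat.sub_add_cancel h1,
      Nat.sub_add_cancel h2]
    ring
  | mul p q ihp ihq =>
    simp only [hl, ev_mul, ihp, ihq, ev, deg, pow_add]
    ring

theorem hL_cast (a b w K : ℕ) (l : List ℤ) :
    ((hL (a + b * K) (w * (1 + K)) l : ℤ) : ℝ) * 1 = PC.ev (comp a b w l).1 (K : ℝ) := by
  induction l with
  | nil => simp [hL, comp, PC.ev]
  | cons c l ih =>
    simp only [hL, comp, ev_add, ev_smul, ev_mulL, comp_snd]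
    rw [← ih]
    push_cast
    ring

theorem hl_int (a b w K : ℕ) (p : PE) :
    PC.ev (hl a b w p) (K : ℝ) = ((hom (a + b * K) (w * (1 + K)) p : ℤ) : ℝ) := by
  induction p with
  | C c => simp [hl, PC.ev, hom]
  | L l =>
    simp only [hl, hom]
    rw [← hL_cast, mul_one]
  | add p q ihp ihq =>
    simp only [hl, ev_add, ev_padn, ihp, ihq, hom]
    push_cast
    ring
  | sub p q ihp ihq =>
    simp only [hl, ev_sub, ev_padn, ihp, ihq, hom]
    push_cast
    ring
  | mul p q ihp ihq =>
    simp only [hl, ev_mul, ihp, ihq, hom]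
    push_cast
    ring

theorem comp_norm (a b w : ℕ) (l : List ℤ) :
    n1 (comp a b w l).1 ≤ nL (a + b) (2 * w) l ∧ n1 (comp a b w l).2 ≤ (2 * w) ^ l.length := by
  induction l with
  | nil => simp [comp, n1, nL]
  | cons c l ih =>
    obtain ⟨ih1, ih2⟩ := ih
    have h2 : n1 (mulL (w : ℤ) w (comp a b w l).2) ≤ (2 * w) ^ (l.length + 1) := by
      refine (n1_mulL _ _ _).trans ?_
      simp only [Int.natAbs_natCast]
      calc (w + w) * n1 (comp a b w l).2 ≤ (w + w) * (2 * w) ^ l.length :=
            Nat.mul_le_mul_left _ ih2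
        _ = (2 * w) ^ (l.length + 1) := by ring
    refine ⟨?_, h2⟩
    simp only [comp, nL]
    refine (n1_add _ _).trans (Nat.add_le_add ?_ ?_)
    · rw [n1_smul]
      exact Nat.mul_le_mul_left _ h2
    · refine (n1_mulL _ _ _).trans ?_
      simp only [Int.natAbs_natCast]
      exact Nat.mul_le_mul_left _ ih1

theorem hl_norm (a b w : ℕ) (p : PE) : n1 (hl a b w p) ≤ nrm (a + b) (2 * w) p := by
  induction p with
  | C c => simp [hl, n1, nrm]
  | L l => exact (comp_norm a b w l).1
  | add p q ihp ihq =>
    simp only [hl, nrm]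
    refine (n1_add _ _).trans (Nat.add_le_add ?_ ?_)
    · refine (n1_padn _ _ _).trans ?_
      simp only [Int.natAbs_natCast]
      exact Nat.mul_le_mul_right _ ihp
    · refine (n1_padn _ _ _).trans ?_
      simp only [Int.natAbs_natCast]
      exact Nat.mul_le_mul_right _ ihq
  | sub p q ihp ihq =>
    simp only [hl, nrm, PC.sub]
    refine (n1_add _ _).trans (Nat.add_le_add ?_ ?_)
    · refine (n1_padn _ _ _).trans ?_
      simp only [Int.natAbs_natCast]
      exact Nat.mul_le_mul_right _ ihp
    · rw [n1_smul]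
      simp only [Int.reduceNeg, Int.natAbs_neg, Int.natAbs_one, one_mul]
      refine (n1_padn _ _ _).trans ?_
      simp only [Int.natAbs_natCast]
      exact Nat.mul_le_mul_right _ ihq
  | mul p q ihp ihq =>
    simp only [hl, nrm]
    exact (n1_mul _ _).trans (Nat.mul_le_mul ihp ihq)

theorem comp_len (a b w : ℤ) (l : List ℤ) :
    (comp a b w l).1.length ≤ l.length + 1 ∧ (comp a b w l).2.length = l.length + 1 := by
  induction l with
  | nil => simp [comp]
  | cons c l ih =>
    obtain ⟨ih1, ih2⟩ := ih
    simp only [comp, len_add, len_smul, len_mulL, List.length_cons]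
    omega

theorem hl_len (a b w : ℕ) (p : PE) : (hl a b w p).length ≤ deg p + 1 := by
  induction p with
  | C c => simp [hl]
  | L l => exact (comp_len _ _ _ l).1
  | add p q ihp ihq =>
    have h1 : deg p ≤ deg (add p q) := le_max_left _ _
    have h2 : deg q ≤ deg (add p q) := le_max_right _ _
    simp only [hl, len_add, len_padn]
    omega
  | sub p q ihp ihq =>
    have h1 : deg p ≤ deg (sub p q) := le_max_left _ _
    have h2 : deg q ≤ deg (sub p q) := le_max_right _ _
    simp only [hl, PC.sub, len_smul, len_add, len_padn]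
    omega
  | mul p q ihp ihq =>
    have := len_mul (hl a b w p) (hl a b w q)
    simp only [hl, deg]
    omega

theorem continuous_ev (p : PE) : Continuous (ev p) := by
  induction p with
  | C c => exact continuous_const
  | L l => exact PC.continuous_ev l
  | add p q ihp ihq => exact ihp.add ihq
  | sub p q ihp ihq => exact ihp.sub ihq
  | mul p q ihp ihq => exact ihp.mul ihq

end PE

theorem dig_sound (H : ℕ) : ∀ (N : ℕ) (l : List ℤ) (V : ℕ), l.length ≤ N →
    n1 l < H → (V : ℤ) = evZ l ((2 * H : ℕ) : ℤ) + ((H * geo (2 * H) N : ℕ) : ℤ) →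
    dig (2 * H) H N V = true → allNN l = true := by
  intro N
  induction N with
  | zero =>
    intro l V hl _ _ _
    have : l = [] := List.length_eq_zero_iff.mp (by omega)
    subst this
    rfl
  | succ N ih =>
    intro l V hl hn hV hd
    cases l with
    | nil => rfl
    | cons c l =>
      simp only [n1] at hn
      simp only [List.length_cons] at hl
      simp only [dig, Bool.and_eq_true, Nat.ble_eq] at hd
      have hc : |c| < (H : ℤ) := by
        rw [Int.abs_eq_natAbs]
        exact_mod_cast (by omega : c.natAbs < H)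
      have hc1 : -(H : ℤ) < c := (abs_lt.mp hc).1
      have hc2 : c < (H : ℤ) := (abs_lt.mp hc).2
      have hHpos : 0 < H := by omega
      set V' : ℤ := evZ l ((2 * H : ℕ) : ℤ) + ((H * geo (2 * H) N : ℕ) : ℤ) with hV'
      have hV2 : (V : ℤ) = (c + H) + ((2 * H : ℕ) : ℤ) * V' := by
        rw [hV, hV']
        simp only [evZ, geo]
        push_cast
        ring
      have hmod : ((V % (2 * H) : ℕ) : ℤ) = c + H := by
        rw [Int.natCast_mod, hV2, Int.add_mul_emod_self_left]
        refine Int.emod_eq_of_lt (by linarith) ?_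
        push_cast
        linarith
      have hdiv : ((V / (2 * H) : ℕ) : ℤ) = V' := by
        rw [Int.natCast_div, hV2, Int.add_mul_ediv_left _ _ (by positivity)]
        rw [Int.ediv_eq_zero_of_lt (by linarith) (by push_cast; linarith), zero_add]
      have hc0 : 0 ≤ c := by
        have : ((H : ℕ) : ℤ) ≤ ((V % (2 * H) : ℕ) : ℤ) := by exact_mod_cast hd.1
        rw [hmod] at this
        linarith
      simp only [allNN, Bool.and_eq_true, decide_eq_true_eq]
      refine ⟨hc0, ih l (V / (2 * H)) (by omega) (by omega) hdiv hd.2⟩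

theorem pchk_allNN {p : PE} {e a b w : ℕ} (h : pchk p e a b w = true) :
    allNN (p.hl a b w) = true := by
  simp only [pchk, Bool.and_eq_true, Nat.ble_eq] at h
  obtain ⟨h1, h2⟩ := h
  have hK : 2 ^ (e + 1) = 2 * 2 ^ e := by ring
  rw [hK] at h2
  have hn : n1 (p.hl a b w) < 2 ^ e := lt_of_le_of_lt (p.hl_norm a b w) (by omega)
  set H := 2 ^ e with hH
  have hHpos : 0 < H := by positivity
  -- value
  have hval : evZ (p.hl a b w) ((2 * H : ℕ) : ℤ) = p.hom (a + b * (2 * H)) (w * (1 + 2 * H)) := by
    have h3 := PE.hl_int a b w (2 * H) p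
    have h4 := evZ_cast (p.hl a b w) ((2 * H : ℕ) : ℤ)
    have h5 : (((2 * H : ℕ) : ℤ) : ℝ) = ((2 * H : ℕ) : ℝ) := by push_cast; ring
    rw [h5, h3] at h4
    exact_mod_cast h4
  -- lower bound
  have hbound : ∀ (N : ℕ) (l : List ℤ), l.length ≤ N → n1 l < H →
      0 ≤ evZ l ((2 * H : ℕ) : ℤ) + ((H * geo (2 * H) N : ℕ) : ℤ) := by
    intro N
    induction N with
    | zero =>
      intro l hl _
      have : l = [] := List.length_eq_zero_iff.mp (by omega)
      subst this
      simp [evZ]
    | succ N ih =>
      intro l hl hn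
      cases l with
      | nil => simp only [evZ, zero_add]; positivity
      | cons c l =>
        simp only [n1] at hn
        simp only [List.length_cons] at hl
        have hc : |c| < (H : ℤ) := by
          rw [Int.abs_eq_natAbs]
          exact_mod_cast (by omega : c.natAbs < H)
        have hc1 : -(H : ℤ) < c := (abs_lt.mp hc).1
        have h6 := ih l (by omega) (by omega)
        have h7 : evZ (c :: l) ((2 * H : ℕ) : ℤ) + ((H * geo (2 * H) (N + 1) : ℕ) : ℤ) =
            (c + H) + ((2 * H : ℕ) : ℤ) * (evZ l ((2 * H : ℕ) : ℤ) +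
              ((H * geo (2 * H) N : ℕ) : ℤ)) := by
          simp only [evZ, geo]
          push_cast
          ring
        rw [h7]
        have : 0 ≤ ((2 * H : ℕ) : ℤ) * (evZ l ((2 * H : ℕ) : ℤ) +
              ((H * geo (2 * H) N : ℕ) : ℤ)) := mul_nonneg (by positivity) h6
        linarith
  refine dig_sound H (p.deg + 1) (p.hl a b w) _ (p.hl_len a b w) hn ?_ h2
  rw [← hval, Int.toNat_of_nonneg (hbound _ _ (p.hl_len a b w) hn)]

theorem pchk_sound {p : PE} {e a b w : ℕ} (hw : 0 < w) (h : pchk p e a b w = true) {x : ℝ}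
    (h1 : (a : ℝ) / w ≤ x) (h2 : x ≤ (b : ℝ) / w) : 0 ≤ p.ev x := by
  have hA := pchk_allNN h
  have hw' : (0 : ℝ) < w := by exact_mod_cast hw
  have key : ∀ x : ℝ, (a : ℝ) / w ≤ x → x < (b : ℝ) / w → 0 ≤ p.ev x := by
    intro x h1 h2
    have h3 : 0 < (b : ℝ) - w * x := by
      rw [lt_div_iff₀ hw'] at h2
      linarith
    have h4 : 0 ≤ w * x - a := by
      rw [div_le_iff₀ hw'] at h1
      linarith
    set t : ℝ := (w * x - a) / (b - w * x) with ht
    have ht0 : 0 ≤ t := by positivity
    have hne : (w : ℝ) * (1 + t) ≠ 0 := by positivity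
    have hx : ((a : ℝ) + b * t) / (w * (1 + t)) = x := by
      rw [div_eq_iff hne, ht]
      field_simp
      ring
    have := PE.hl_real a b w t hne p
    rw [hx] at this
    have hpos := ev_nonneg hA ht0
    rw [this] at hpos
    have hp : 0 < ((w : ℝ) * (1 + t)) ^ p.deg := by positivity
    exact nonneg_of_mul_nonneg_right (by linarith) hp
  rcases lt_or_eq_of_le h2 with h0 | h0
  · exact key x h1 h0
  · rcases lt_or_eq_of_le h1 with h' | h'
    · have hcl : x ∈ closure (Set.Ico ((a : ℝ) / w) x) := by
        rw [closure_Ico (ne_of_lt h')]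
        exact ⟨h1, le_rfl⟩
      exact closure_minimal (s := Set.Ico ((a : ℝ) / w) x) (t := {y | 0 ≤ p.ev y})
        (fun y hy => key y hy.1 (by rw [← h0]; exact hy.2))
        (isClosed_le continuous_const p.continuous_ev) hcl
    · have hne : (w : ℝ) * (1 + 0) ≠ 0 := by simpa using hw'.ne'
      have := PE.hl_real a b w 0 hne p
      have hpos := ev_nonneg hA (le_refl (0 : ℝ))
      rw [this] at hpos
      have hp : 0 < ((w : ℝ) * (1 + 0)) ^ p.deg := by positivity
      have hx : ((a : ℝ) + b * 0) / (w * (1 + 0)) = x := by rw [← h']; simp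
      rw [hx] at hpos
      exact nonneg_of_mul_nonneg_right (by linarith) hp

theorem pchkL_sound {p : PE} {e w : ℕ} (hw : 0 < w) : ∀ (r : List ℕ) (a c b : ℕ),
    pchkL p e w (a :: c :: r) = true → (a :: c :: r).getLast? = some b →
    ∀ x : ℝ, (a : ℝ) / w ≤ x → x ≤ (b : ℝ) / w → 0 ≤ p.ev x := by
  intro r
  induction r with
  | nil =>
    intro a c b h hb x h1 h2
    simp only [pchkL, Bool.and_true, Bool.and_eq_true] at h
    simp at hb
    subst hb
    exact pchk_sound hw h.2 h1 h2
  | cons d r ih =>
    intro a c b h hb x h1 h2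
    simp only [pchkL, Bool.and_eq_true] at h
    rcases le_or_gt x ((c : ℝ) / w) with hx | hx
    · exact pchk_sound hw h.1.2 h1 hx
    · have hb' : (c :: d :: r).getLast? = some b := by simpa using hb
      have h' : pchkL p e w (c :: d :: r) = true := by
        simp only [pchkL, Bool.and_eq_true]
        exact h.2
      exact ih c d b h' hb' x hx.le h2

end Pool.Agent.H99.PC
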