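import Pool.Agent.H99.PC.Poly

/-!
# Derivatives of integer polynomials given by lists
-/

namespace Pool.Agent.H99.PC

/-- derivative -/
def dv : List ℤ → List ℤ
  | [] => []
  | _ :: l => add l (0 :: dv l)

/-- difference -/
def sub (l m : List ℤ) : List ℤ := add l (smul (-1) m)

/-- powers -/
def pw (l : List ℤ) : ℕ → List ℤ
  | 0 => [1]
  | n + 1 => mul l (pw l n)

theorem ev_sub (l m : List ℤ) (x : ℝ) : ev (sub l m) x = ev l x - ev m x := by
  simp only [sub, ev_add, ev_smul]; push_cast; ring

theorem ev_pw (l : List ℤ) (n : ℕ) (x : ℝ) : ev (pw l n) x = ev l x ^ n := by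
  induction n with
  | zero => simp [pw, ev]
  | succ n ih => simp only [pw, ev_mul, ih, pow_succ]; ring

theorem hasDerivAt_ev (l : List ℤ) (x : ℝ) : HasDerivAt (ev l) (ev (dv l) x) x := by
  induction l with
  | nil => exact hasDerivAt_const x 0
  | cons c l ih =>
    have h := ((hasDerivAt_id' x).mul ih).const_add (c : ℝ)
    refine h.congr_deriv ?_
    simp only [dv, ev_add, ev]
    push_cast
    ring

/-- soundness of a list of breakpoints `a/w < … < b/w`, convenient form -/
theorem chkL_nonneg {l : List ℤ} {w : ℤ} {a c b : ℤ} {p : List ℤ} (hw : 0 < w)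
    (h : chkL l w (a :: c :: p) = true) (hb : (a :: c :: p).getLast? = some b) {x : ℝ}
    (h1 : (a : ℝ) / w ≤ x) (h2 : x ≤ (b : ℝ) / w) : 0 ≤ ev l x := by
  rcases chkL_sound hw (c :: p) a b h hb x h1 h2 with h3 | h3
  · exact h3
  · simp at h3

end Pool.Agent.H99.PC
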